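import Pool.Agent.H877Z.Kir.Main

set_option autoImplicit false

open Pool.Agent.H877Z.Kir
open scoped InnerProductSpace

universe u v

namespace Pool.Agent.Results.MP_6bc951_gt.AObstruction

/-- A maximal short map from a proper subset `Q` of an `Alex(1)` space to a `CAT(1)` space:
`Q` is a Hilbert sphere with a pole in `L`, the map preserves distances, and its image has no
pole in `U`. -/
theorem result (L : Type u) (U : Type v) [MetricSpace L] [MetricSpace U] (hL : IsAlex1 L)
    (hU : IsCAT1 U) (Q : Set L) (hQ : Q ≠ Set.univ) (f : Q → U) (hf : IsMaximalShort Q f) :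
    ((∃ (H : Type u) (_ : NormedAddCommGroup H) (_ : InnerProductSpace ℝ H) (_ : CompleteSpace H)
        (φ : Q → H), Set.range φ = Metric.sphere 0 1 ∧
          ∀ a b : Q, dist a b = Real.arccos ⟪φ a, φ b⟫_ℝ) ∧
        ∃ p : L, ∀ q ∈ Q, dist p q = Real.pi / 2) ∧
      (∀ a b : Q, dist (f a) (f b) = dist a b) ∧
        ¬ ∃ p' : U, ∀ q : Q, dist p' (f q) = Real.pi / 2 :=
  main hL hU hQ hf

end Pool.Agent.Results.MP_6bc951_gt.AObstruction
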